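import Pool.Agent.H211.HY.Fin5

/-!
# Collet-Eckmann rational maps are limits of hyperbolic rational maps

Let `f = P / Q` be a rational map of degree `d ≥ 2` such that every critical point of `f` is attracted
by an attracting cycle or satisfies the Collet-Eckmann condition: the spherical derivatives of the
iterates at the critical value grow exponentially. Nothing else is assumed: the number and the
multiplicities of the critical points are arbitrary, they may be recurrent to each other at any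
speed, and nothing is assumed about the Julia set. If `f` is not a flexible Lattès map then `f` is a
limit of hyperbolic rational maps of degree `d`.

If all critical points are Collet-Eckmann (then the Julia set is the whole sphere) the approximation
is exponential: there are `a > 0`, `A` such that for all large `n` there is a rational map `g` of
degree `d` at distance at most `exp (- a n)` from `f`, with the same multiplicities of the critical
points, such that each critical point of `g` is mapped onto a critical point by one of the first `n`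
iterates of `g` (so `g` is hyperbolic, all its critical orbits are finite and end in superattracting
cycles), and all the rational maps at distance at most `exp (- A n)` from `g` are hyperbolic. So every
ball of a small radius `r` about `f` contains a ball of radius `r ^ C` which consists of hyperbolic
maps.

The rational map is described in homogeneous coordinates of the sphere: the point with the
homogeneous coordinates `p = (u, v) ≠ 0` is `u / v`, and `f` is induced by the map
`F (u, v) = (v ^ d * P (u / v), v ^ d * Q (u / v))` of `ℂ²`.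
-/

set_option autoImplicit false

open Filter Topology Polynomial

namespace Pool.Agent.Results.MP_8f2e1c_an.ColletEckmannLimits

/-- The homogeneous map `F` of `ℂ²` which induces the rational map `P / Q` of degree `d`. -/
noncomputable def lift (d : ℕ) (P Q : ℂ[X]) (p : ℂ × ℂ) : ℂ × ℂ :=
  (∑ j ∈ Finset.range (d + 1), P.coeff j * p.1 ^ j * p.2 ^ (d - j),
   ∑ j ∈ Finset.range (d + 1), Q.coeff j * p.1 ^ j * p.2 ^ (d - j))

/-- The Jacobian determinant of `F`. The critical points of the rational map are the points whose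
homogeneous coordinates are its zeros (with the same multiplicities). -/
noncomputable def jac (d : ℕ) (P Q : ℂ[X]) (p : ℂ × ℂ) : ℂ := (fderiv ℂ (lift d P Q) p).det

/-- The square of the Euclidean norm of `ℂ²`. -/
noncomputable def normSq (p : ℂ × ℂ) : ℝ := ‖p.1‖ ^ 2 + ‖p.2‖ ^ 2

/-- The derivative of the rational map with respect to the spherical metric, at the point with the
homogeneous coordinates `p ≠ 0`. -/
noncomputable def sphericalDeriv (d : ℕ) (P Q : ℂ[X]) (p : ℂ × ℂ) : ℝ :=
  ‖jac d P Q p‖ * normSq p / ((d : ℝ) * normSq (lift d P Q p))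

/-- The Collet-Eckmann condition for the critical point `c`: the spherical derivatives of the
iterates at the critical value grow exponentially. -/
def ColletEckmann (d : ℕ) (P Q : ℂ[X]) (c : ℂ × ℂ) : Prop :=
  ∃ C > (0 : ℝ), ∃ μ > (1 : ℝ), ∀ n : ℕ,
    C * μ ^ n ≤ ∏ j ∈ Finset.range n, sphericalDeriv d P Q ((lift d P Q)^[j + 1] c)

/-- The chordal distance (with values in `[0, 1]`) of the points of the sphere with the homogeneous
coordinates `p` and `q`. -/
noncomputable def chordal (p q : ℂ × ℂ) : ℝ :=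
  ‖p.1 * q.2 - p.2 * q.1‖ / Real.sqrt (normSq p * normSq q)

/-- The point `c` is attracted by an attracting cycle: the cycle of a periodic point `z` with a
multiplier of modulus less than `1`. -/
def Attracted (d : ℕ) (P Q : ℂ[X]) (c : ℂ × ℂ) : Prop :=
  ∃ n : ℕ, 0 < n ∧ ∃ z : ℂ × ℂ, z ≠ 0 ∧ chordal ((lift d P Q)^[n] z) z = 0 ∧
    ∏ j ∈ Finset.range n, sphericalDeriv d P Q ((lift d P Q)^[j] z) < 1 ∧
    Tendsto (fun k : ℕ => chordal ((lift d P Q)^[n * k] c) z) atTop (𝓝 0)

/-- The binary quartic form with the coefficients `r`. -/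
noncomputable def quartic (r : Fin 5 → ℂ) (p : ℂ × ℂ) : ℂ :=
  ∑ j : Fin 5, r j * p.1 ^ (j : ℕ) * p.2 ^ (4 - (j : ℕ))

/-- Flexible Lattès maps: for a quartic form `R ≠ 0` the pullback of the quadratic differential
`(v du - u dv)² / R (u, v) = dz² / R (z, 1)` is its multiple by `d`. (So the map is covered by a
homothety with a factor whose square is `d`; the factor is an integer.) -/
def FlexibleLattes (d : ℕ) (P Q : ℂ[X]) : Prop :=
  ∃ r : Fin 5 → ℂ, r ≠ 0 ∧ ∀ p : ℂ × ℂ,
    quartic r p * jac d P Q p ^ 2 = (d : ℂ) ^ 3 * quartic r (lift d P Q p)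

/-- `c` is a critical point of the map `f` of the sphere: `f` is not locally injective at `c`. -/
def Critical (f : OnePoint ℂ → OnePoint ℂ) (c : OnePoint ℂ) : Prop :=
  ¬ ∃ U ∈ nhds c, Set.InjOn f U

/-- The map `f` of the sphere is hyperbolic: all critical points are attracted by periodic sinks
(the formula of the frozen statement). -/
def Hyperbolic (f : OnePoint ℂ → OnePoint ℂ) : Prop :=
  ∀ c : OnePoint ℂ, Critical f c → ∃ z : OnePoint ℂ, ∃ n : ℕ, 0 < n ∧ f^[n] z = z ∧
    (∃ U ∈ nhds z, ∀ w ∈ U, Tendsto (fun k : ℕ => f^[n * k] w) atTop (nhds z)) ∧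
    Tendsto (fun k : ℕ => f^[n * k] c) atTop (nhds z)

/-- The coefficients of `P'`, `Q'` (of degree at most `d`) are at distance at most `r` from those of
`P`, `Q`. -/
def Near (d : ℕ) (P Q P' Q' : ℂ[X]) (r : ℝ) : Prop :=
  P'.natDegree ≤ d ∧ Q'.natDegree ≤ d ∧
    ∀ i : ℕ, ‖P'.coeff i - P.coeff i‖ ≤ r ∧ ‖Q'.coeff i - Q.coeff i‖ ≤ r

/-- `P / Q` is a hyperbolic rational map of degree `d` (as in the frozen statement). -/
def IsHyperbolic (d : ℕ) (P Q : ℂ[X]) : Prop :=
  IsCoprime P Q ∧ max P.natDegree Q.natDegree = d ∧ ∃ f : OnePoint ℂ → OnePoint ℂ, Continuous f ∧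
    (∀ z : ℂ, Q.eval z ≠ 0 → f (OnePoint.some z) = OnePoint.some (P.eval z / Q.eval z)) ∧
    Hyperbolic f

/-- The distinct critical points of `P / Q` can be enumerated as `c i`, and those of `P' / Q'` as
`c' i`, with the same multiplicities `m i`. -/
def SameMultiplicities (d : ℕ) (P Q P' Q' : ℂ[X]) : Prop :=
  ∃ (k : ℕ) (m : Fin k → ℕ) (c c' : Fin k → ℂ × ℂ) (a a' : ℂ), a ≠ 0 ∧ a' ≠ 0 ∧
    (∀ i, 1 ≤ m i) ∧
    (∀ i j, i ≠ j → (c i).1 * (c j).2 - (c i).2 * (c j).1 ≠ 0 ∧
      (c' i).1 * (c' j).2 - (c' i).2 * (c' j).1 ≠ 0) ∧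
    (∀ p, jac d P Q p = a * ∏ i, (p.1 * (c i).2 - p.2 * (c i).1) ^ m i) ∧
    ∀ p, jac d P' Q' p = a' * ∏ i, (p.1 * (c' i).2 - p.2 * (c' i).1) ^ m i

/-- **Rational maps all of whose critical points are attracted or Collet-Eckmann**, with the
exception of the flexible Lattès maps, are limits of hyperbolic rational maps; if all critical points
are Collet-Eckmann, the approximation is exponential in terms of the time after which the critical
points are mapped onto critical points. -/
theorem result (d : ℕ) (hd : 2 ≤ d) (P Q : ℂ[X]) (hPQ : IsCoprime P Q)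
    (hdeg : max P.natDegree Q.natDegree = d)
    (hcrit : ∀ c : ℂ × ℂ, c ≠ 0 → jac d P Q c = 0 → Attracted d P Q c ∨ ColletEckmann d P Q c)
    (hL : ¬ FlexibleLattes d P Q) :
    (∀ ε > (0 : ℝ), ∃ P' Q' : ℂ[X], Near d P Q P' Q' ε ∧ IsHyperbolic d P' Q') ∧
    ((∀ c : ℂ × ℂ, c ≠ 0 → jac d P Q c = 0 → ColletEckmann d P Q c) →
      ∃ a > (0 : ℝ), ∃ A : ℝ, ∃ n₀ : ℕ, ∀ n ≥ n₀, ∃ P' Q' : ℂ[X],
        Near d P Q P' Q' (Real.exp (-(a * n))) ∧ SameMultiplicities d P Q P' Q' ∧
        (∀ c : ℂ × ℂ, c ≠ 0 → jac d P' Q' c = 0 →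
          ∃ j : ℕ, 1 ≤ j ∧ j ≤ n ∧ jac d P' Q' ((lift d P' Q')^[j] c) = 0) ∧
        ∀ P'' Q'' : ℂ[X], Near d P' Q' P'' Q'' (Real.exp (-(A * n))) → IsHyperbolic d P'' Q'') := by
  have hPQ' := Pool.Agent.H790R3.RB.PQ Pool.Agent.H790R3.RB.SP d (by omega)
  obtain ⟨x, hx, hP, hQ, -⟩ := hPQ'.2 P Q hPQ hdeg
  obtain ⟨-, -, hcx, hbx, -⟩ := hPQ'.1 x hx
  have hlift : lift d P Q = Pool.Agent.H790R3.RB.hF x := by
    rw [← hP, ← hQ]
    exact Pool.Agent.H211.HY.lft_eq x hcx
  have hjac : ∀ p, jac d P Q p = Pool.Agent.H790R3.RB.wr x p := fun p => by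
    unfold jac
    rw [hlift]
    exact Pool.Agent.H211.HY.jac_eq hd x p
  have hsd : ∀ p, sphericalDeriv d P Q p = Pool.Agent.H211.HY.sd x p := fun p => by
    unfold sphericalDeriv Pool.Agent.H211.HY.sd
    rw [hjac, hlift]
    rfl
  have hcep : ∀ c, ColletEckmann d P Q c ↔ Pool.Agent.H211.HY.CEp x c := by
    intro c
    have h1 : ∀ n : ℕ, ∏ j ∈ Finset.range n, sphericalDeriv d P Q ((lift d P Q)^[j + 1] c) =
        Pool.Agent.H211.HY.sdn x n (Pool.Agent.H790R3.RB.hF x c) := by
      intro n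
      unfold Pool.Agent.H211.HY.sdn
      refine Finset.prod_congr rfl fun j _ => ?_
      rw [hsd, hlift, Function.iterate_succ_apply]
    constructor
    · rintro ⟨C, hC, μ, hμ, h⟩
      exact ⟨C, hC, μ, hμ, fun n => (h n).trans_eq (h1 n)⟩
    · rintro ⟨C, hC, μ, hμ, h⟩
      exact ⟨C, hC, μ, hμ, fun n => (h n).trans_eq (h1 n).symm⟩
  have hcho : ∀ p q, chordal p q = Pool.Agent.H211.HY.cho p q := fun p q => rfl
  have hnz : ∀ (z : ℂ × ℂ), z ≠ 0 → ∀ n : ℕ, (Pool.Agent.H790R3.RB.hF x)^[n] z ≠ 0 :=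
    Pool.Agent.H211.HY.p_CHO.2.2.2.2 d x hd hx |>.2.2.2.1 |> fun h z hz n => h n z hz
  have hatt : ∀ c, Attracted d P Q c → Pool.Agent.H211.HY.AT x c := by
    rintro c ⟨n, hn, z, hz, h1, h2, h3⟩
    refine ⟨n, hn, z, hz, ?_, ?_, ?_⟩
    · rw [hlift] at h1
      exact (Pool.Agent.H211.HY.p_CHO.2.2.1 _ _ (hnz z hz n) hz).1 h1
    · refine lt_of_eq_of_lt ?_ h2
      unfold Pool.Agent.H211.HY.sdn
      refine Finset.prod_congr rfl fun j _ => ?_
      rw [hsd, hlift]
    · rw [hlift] at h3
      exact h3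
  have hlat : ¬ Pool.Agent.H211.HY.Lat x := by
    rintro ⟨r, hr, h⟩
    refine hL ⟨r, hr, fun p => ?_⟩
    have hq : ∀ q, quartic r q = Pool.Agent.H211.HY.quar r q := fun q => by
      unfold quartic Pool.Agent.H211.HY.quar
      exact Finset.sum_congr rfl fun j _ => by rw [mul_assoc]
    rw [hq, hq, hjac, hlift]
    exact h p
  -- translation of the approximating maps
  have hhyp : ∀ z : Pool.Agent.H790R3.RB.CV d, Pool.Agent.H790R3.RB.ND z →
      Pool.Agent.H790R3.RB.HypTop (Pool.Agent.H790R3.RB.sp z) →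
      IsHyperbolic d (Pool.Agent.H790R3.RB.pol z 0) (Pool.Agent.H790R3.RB.pol z 1) := by
    intro z hz hz3
    obtain ⟨h1, h2, h3, h4, h5⟩ := hPQ'.1 z hz
    exact ⟨h1, h2, Pool.Agent.H790R3.RB.sp z, (Pool.Agent.H790R3.RB.SP d z (by omega) hz).1, h5,
      hz3⟩
  have hnear : ∀ (z : Pool.Agent.H790R3.RB.CV d) (r : ℝ), 0 ≤ r → Pool.Agent.H790R3.RB.ND z →
      ‖z - x‖ ≤ r → Near d P Q (Pool.Agent.H790R3.RB.pol z 0) (Pool.Agent.H790R3.RB.pol z 1) r := by
    intro z r hr hz hzr
    obtain ⟨h1, h2, h3, h4, h5⟩ := hPQ'.1 z hz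
    have hclose : ∀ (i : Fin 2) (j : ℕ), ‖(Pool.Agent.H790R3.RB.pol z i).coeff j -
        (Pool.Agent.H790R3.RB.pol x i).coeff j‖ ≤ r := by
      intro i j
      by_cases hj : j < d + 1
      · have e1 := h3 i ⟨j, hj⟩
        have e2 := hcx i ⟨j, hj⟩
        simp only at e1 e2
        rw [e1, e2]
        exact (norm_le_pi_norm (z - x) (i, ⟨j, hj⟩)).trans hzr
      · rw [h4 i j (by omega), hbx i j (by omega), sub_zero, norm_zero]
        exact hr
    refine ⟨(le_max_left _ _).trans h2.le, (le_max_right _ _).trans h2.le, fun i => ?_⟩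
    rw [← hP, ← hQ]
    exact ⟨hclose 0 i, hclose 1 i⟩
  constructor
  · intro ε hε
    obtain ⟨z, hz1, hz2, hz3, hz4⟩ := Pool.Agent.H211.HY.main3 d x hd hx hlat (fun c hc hw => by
      rcases hcrit c hc (by rw [hjac]; exact hw) with h | h
      · exact Or.inl (hatt c h)
      · exact Or.inr ((hcep c).1 h)) ε hε
    exact ⟨_, _, hnear z ε hε.le hz2 hz1.le, hhyp z hz2 hz3⟩
  · intro hall
    have hce : Pool.Agent.H211.HY.CE x := fun c hc hw =>
      (hcep c).1 (hall c hc (by rw [hjac]; exact hw))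
    obtain ⟨a, ha, A, n₀, h⟩ := Pool.Agent.H211.HY.rate2 (x := x) ⟨hd, hx, hce, hlat⟩
    refine ⟨a, ha, A, n₀, fun n hn => ?_⟩
    obtain ⟨z, hz1, hz2, hz3, hz4, hz5⟩ := h n hn
    obtain ⟨h1, h2, h3, h4, h5⟩ := hPQ'.1 z hz2
    have hliftz : lift d (Pool.Agent.H790R3.RB.pol z 0) (Pool.Agent.H790R3.RB.pol z 1) =
        Pool.Agent.H790R3.RB.hF z := Pool.Agent.H211.HY.lft_eq z h3
    have hjacz : ∀ p, jac d (Pool.Agent.H790R3.RB.pol z 0) (Pool.Agent.H790R3.RB.pol z 1) p =
        Pool.Agent.H790R3.RB.wr z p := fun p => by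
      unfold jac
      rw [hliftz]
      exact Pool.Agent.H211.HY.jac_eq hd z p
    have hnzz : ∀ (p : ℂ × ℂ), p ≠ 0 → ∀ n : ℕ, (Pool.Agent.H790R3.RB.hF z)^[n] p ≠ 0 :=
      Pool.Agent.H211.HY.p_CHO.2.2.2.2 d z hd hz2 |>.2.2.2.1 |> fun h p hp n => h n p hp
    refine ⟨_, _, hnear z _ (Real.exp_pos _).le hz2 hz1, ?_, ?_, ?_⟩
    · obtain ⟨k, m, c, c', b, b', hb, hb', hm, hcc, hf, hf'⟩ := hz4
      refine ⟨k, m, c, c', b, b', hb, hb', hm, hcc, fun p => ?_, fun p => ?_⟩
      · rw [hjac]
        exact hf p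
      · rw [hjacz]
        exact hf' p
    · intro c hc hw
      rw [hjacz] at hw
      obtain ⟨j, hj1, hj2, c', hc', hw', hcr⟩ := hz3 c hc hw
      refine ⟨j, hj1, hj2, ?_⟩
      rw [hjacz, hliftz]
      exact Pool.Agent.H211.HY.wr_of_par hd z (hnzz c hc j) hc' hcr hw'
    · intro P'' Q'' hn''
      obtain ⟨hd1, hd2, hco⟩ := hn''
      -- the coefficient vector of `P''`, `Q''`
      let w : Pool.Agent.H790R3.RB.CV d := fun q => if q.1 = 0 then P''.coeff q.2 else Q''.coeff q.2
      have hw0 : ∀ j : Fin (d + 1), w (0, j) = P''.coeff j := fun j => by simp [w]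
      have hw1 : ∀ j : Fin (d + 1), w (1, j) = Q''.coeff j := fun j => by simp [w]
      have hwz : ‖w - z‖ ≤ Real.exp (-(A * n)) := by
        refine (pi_norm_le_iff_of_nonneg (Real.exp_pos _).le).2 ?_
        rintro ⟨i, j⟩
        rw [Pi.sub_apply]
        have e0 := h3 0 j
        have e1 := h3 1 j
        fin_cases i
        · have := (hco j).1
          rw [e0] at this
          simpa [hw0] using this
        · have := (hco j).2
          rw [e1] at this
          simpa [hw1] using this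
      obtain ⟨hwn, hwh⟩ := hz5 w hwz
      obtain ⟨g1, g2, g3, g4, g5⟩ := hPQ'.1 w hwn
      have eP : Pool.Agent.H790R3.RB.pol w 0 = P'' := by
        ext j
        by_cases hj : j < d + 1
        · have := g3 0 ⟨j, hj⟩
          simp only at this
          rw [this, hw0]
        · rw [g4 0 j (by omega), coeff_eq_zero_of_natDegree_lt (by omega)]
      have eQ : Pool.Agent.H790R3.RB.pol w 1 = Q'' := by
        ext j
        by_cases hj : j < d + 1
        · have := g3 1 ⟨j, hj⟩
          simp only at this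
          rw [this, hw1]
        · rw [g4 1 j (by omega), coeff_eq_zero_of_natDegree_lt (by omega)]
      have := hhyp w hwn hwh
      rwa [eP, eQ] at this

end Pool.Agent.Results.MP_8f2e1c_an.ColletEckmannLimits
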