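import Pool.Agent.H207.TF.Fin

/-!
# Collet-Eckmann maps in transversal families and in strata of critical orbit relations

Let `f = P / Q` be a rational map of degree `d ≥ 2` such that `∞` lies in the basin of an attracting
cycle which does not contain `∞` (a normalisation) and every critical point is attracted by an
attracting cycle or satisfies the Collet-Eckmann condition (any number of critical points with any
multiplicities, no condition of slow recurrence, nothing is assumed about the Julia set).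

(1) Families. Let `p` be a holomorphic family of rational maps, `f = p (a)`, which is transversal at `a`:
for every critical point `c` which is not attracted there is a tangent vector `S / Q ^ 2` of the family
with `∑ j, S (f ^ j c) / Q (f ^ j c) ^ 2 / (f ^ j)' (f c) ≠ 0`. Then `a` is a Lebesgue density point of the
hyperbolic parameters; in the complex lines through `a` outside at most `2 (d - 1)` proper subspaces the
area of the other parameters at distance less than `r` from `a` is at most `C r ^ (2 + c)`. So in every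
holomorphic family the non-hyperbolic parameters of this kind form a null set.

(2) Transversality. A family is transversal at `a` if its tangent vectors and the infinitesimal
conjugations together span all the infinitesimal deformations of `f` which keep the multiplicities of the
critical points, the coincidences of the critical values and any given finite list of critical orbit
relations `f ^ n (c) = f ^ n' (c')` between critical points which are attracted or have infinite orbits.

(3) Strata. Let `f` be any rational map whose attracted points are dense in the plane. The maps close to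
`f` which have the same multiplicities of the critical points, coincidences of the critical values and
critical orbit relations `f ^ n (c) = f ^ n' (c')` of a finite list form a complex manifold of the
dimension `k + 4 - N` (`k` the number of the critical values, `N` the number of the relations, pairs
`(P, Q)` are counted, not maps), if the relations are independent: certain explicit formal sums of the
points of the orbits are linearly independent (for example if the relations are `f ^ n (c) = c'`, `n ≥ 1`,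
with different critical points `c'`). The families given by the charts are transversal at all the points
to which (1) applies and where the critical points of the relations are attracted or have infinite
orbits. So these points are Lebesgue density points of the hyperbolic maps of the stratum, and the
non-hyperbolic ones form a null set of the stratum.

(4) Larger class. All this is proved for the maps for which almost every point is attracted and every
critical point is attracted or summable (the inverses of the derivatives of the iterates at the critical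
value have a finite sum), with the following changes in the statements about densities: there must be
`μ > 1` such that for infinitely many `n` and for every critical point which is not attracted the derivative
of some iterate `f ^ m`, `m ≤ n`, at the critical value is at least `μ ^ n`; and the conclusion is that the
hyperbolic parameters have upper logarithmic density one. The null sets are those of the larger class.
The Collet-Eckmann maps belong to it.
-/

set_option autoImplicit false

open MeasureTheory Filter Metric Topology Polynomial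
open scoped OnePoint

namespace Pool.Agent.Results.MP_8f2e1c_an.ColletEckmannStrata

/-- The space of the coefficients of the pairs of polynomials of degree at most `d`. -/
abbrev Coeffs (d : ℕ) : Type := Fin 2 × Fin (d + 1) → ℂ

/-- The numerator: the polynomial with the coefficients `x (0, 0), …, x (0, d)`. -/
noncomputable def num {d : ℕ} (x : Coeffs d) : ℂ[X] := ∑ i : Fin (d + 1), C (x (0, i)) * X ^ (i : ℕ)

/-- The denominator: the polynomial with the coefficients `x (1, 0), …, x (1, d)`. -/
noncomputable def den {d : ℕ} (x : Coeffs d) : ℂ[X] := ∑ i : Fin (d + 1), C (x (1, i)) * X ^ (i : ℕ)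

/-- The coefficients of the hyperbolic rational maps of degree `d`: all the critical points (the
points where the map `f` of the sphere is not locally injective) are attracted by periodic sinks.
This is the formula of the frozen statement. -/
def hyperbolic (d : ℕ) : Set (Coeffs d) :=
  {x | IsCoprime (num x) (den x) ∧ max (num x).natDegree (den x).natDegree = d ∧
    ∃ f : OnePoint ℂ → OnePoint ℂ, Continuous f ∧
      (∀ z : ℂ, (den x).eval z ≠ 0 →
        f (OnePoint.some z) = OnePoint.some ((num x).eval z / (den x).eval z)) ∧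
      ∀ c : OnePoint ℂ, (¬ ∃ U ∈ nhds c, Set.InjOn f U) →
        ∃ z : OnePoint ℂ, ∃ n : ℕ, 0 < n ∧ f^[n] z = z ∧
          (∃ U ∈ nhds z, ∀ w ∈ U, Tendsto (fun k : ℕ => f^[n * k] w) atTop (nhds z)) ∧
          Tendsto (fun k : ℕ => f^[n * k] c) atTop (nhds z)}

/-- The rational function as a map of the plane (with junk value at the poles, where it is never
used). -/
noncomputable def map {d : ℕ} (x : Coeffs d) (z : ℂ) : ℂ := (num x).eval z / (den x).eval z

/-- The polynomial `P' Q - P Q'`. Its zeros are the finite critical points (if no critical point is a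
pole), with the same multiplicities. -/
noncomputable def crit {d : ℕ} (x : Coeffs d) : ℂ[X] :=
  derivative (num x) * den x - num x * derivative (den x)

/-- The point `y` of the sphere lies in the basin of an attracting cycle which does not contain
`∞`. -/
def Attracted {d : ℕ} (x : Coeffs d) (y : OnePoint ℂ) : Prop :=
  ∃ f : OnePoint ℂ → OnePoint ℂ, (Continuous f ∧ ∀ z : ℂ, (den x).eval z ≠ 0 →
    f (OnePoint.some z) = OnePoint.some ((num x).eval z / (den x).eval z)) ∧
    ∃ n : ℕ, 0 < n ∧ ∃ z : ℂ,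
    (∀ i : ℕ, f^[i] (z : OnePoint ℂ) ≠ ∞) ∧ f^[n] (z : OnePoint ℂ) = (z : OnePoint ℂ) ∧
    ‖deriv ((map x)^[n]) z‖ < 1 ∧ Tendsto (fun k : ℕ => f^[n * k] y) atTop (𝓝 (z : OnePoint ℂ))

/-- The Collet-Eckmann condition for the critical point `c`: the derivatives of the iterates at the
critical value grow exponentially. -/
def CE {d : ℕ} (x : Coeffs d) (c : ℂ) : Prop :=
  ∃ μ : ℝ, 1 < μ ∧ ∀ᶠ n : ℕ in atTop, μ ^ n ≤ ‖deriv ((map x)^[n]) (map x c)‖

/-- A rational map of degree `d`, `∞` is attracted by a cycle which does not contain `∞`, and every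
critical point is attracted or Collet-Eckmann. -/
def AttractedOrCE {d : ℕ} (x : Coeffs d) : Prop :=
  (IsCoprime (num x) (den x) ∧ max (num x).natDegree (den x).natDegree = d) ∧ Attracted x ∞ ∧
    ∀ c : ℂ, (crit x).eval c = 0 → Attracted x (c : OnePoint ℂ) ∨ CE x c

/-- A rational map of degree `d`, `∞` is attracted by a cycle which does not contain `∞`, almost every
point is attracted, and every critical point is attracted or summable: the derivatives of the iterates at
the critical value are not zero and the sum of their inverses is finite. -/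
def AttractedOrSummable {d : ℕ} (x : Coeffs d) : Prop :=
  (IsCoprime (num x) (den x) ∧ max (num x).natDegree (den x).natDegree = d) ∧ Attracted x ∞ ∧
    volume {z : ℂ | ¬ Attracted x (z : OnePoint ℂ)} = 0 ∧
    ∀ c : ℂ, (crit x).eval c = 0 → Attracted x (c : OnePoint ℂ) ∨
      ((∀ m : ℕ, deriv ((map x)^[m]) (map x c) ≠ 0) ∧
        Summable fun m : ℕ => ‖deriv ((map x)^[m]) (map x c)‖⁻¹)

/-- Exponential growth along the orbits of the critical values which are not attracted, at infinitely
many times. -/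
def Growing {d : ℕ} (x : Coeffs d) : Prop :=
  ∃ μ : ℝ, 1 < μ ∧ ∃ᶠ n : ℕ in atTop, ∀ c : ℂ, (crit x).eval c = 0 →
    Attracted x (c : OnePoint ℂ) ∨ ∃ m ≤ n, μ ^ n ≤ ‖deriv ((map x)^[m]) (map x c)‖

/-- The numerator `S` of the derivative `S / Q ^ 2` of the rational function in the direction `v`. -/
noncomputable def variation {d : ℕ} (x v : Coeffs d) : ℂ[X] := num v * den x - num x * den v

/-- The family `p` is transversal at `a`: every critical point `c` which is not attracted is moved by some
tangent vector `S / Q ^ 2` of the family. The sum measures how fast the orbit of `c` leaves the moving Julia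
set under the deformation `S / Q ^ 2`. -/
def Transversal {d n : ℕ} (p : (Fin n → ℂ) → Coeffs d) (a : Fin n → ℂ) : Prop :=
  ∀ c : ℂ, (crit (p a)).eval c = 0 → ¬ Attracted (p a) (c : OnePoint ℂ) → ∃ v : Fin n → ℂ,
    ∑' j : ℕ, (variation (p a) (fderiv ℂ p a v)).eval ((map (p a))^[j] c) /
      (den (p a)).eval ((map (p a))^[j] c) ^ 2 / deriv ((map (p a))^[j]) (map (p a) c) ≠ 0

/-- `a` is a Lebesgue density point of `S`, with a power rate in the complex lines through `a` outside
at most `k` proper subspaces (`volume` is an outer measure on the sets which are not measurable). -/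
def DensityOne {n : ℕ} (S : Set (Fin n → ℂ)) (k : ℕ) (a : Fin n → ℂ) : Prop :=
  (∃ 𝒱 : Finset (Submodule ℂ (Fin n → ℂ)), 𝒱.card ≤ k ∧ (∀ V ∈ 𝒱, V ≠ ⊤) ∧
    ∀ b : Fin n → ℂ, (∀ V ∈ 𝒱, b ∉ V) →
      ∃ c > (0 : ℝ), ∃ C > (0 : ℝ), ∃ r₁ > (0 : ℝ), ∀ r : ℝ, 0 < r → r < r₁ →
        volume {s : ℂ | ‖s‖ < r ∧ a + s • b ∉ S} ≤ ENNReal.ofReal (C * r ^ ((2 : ℝ) + c))) ∧
  Tendsto (fun r : ℝ => volume (ball a r \ S) / volume (ball a r)) (𝓝[>] 0) (𝓝 0)

/-- `S` has upper (logarithmic) density one at `a`: the lower limit of the means of the proportions of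
the complement at the scales `1, 1 / 2, …, 2 ^ (- N + 1)` is zero, in the complex lines through `a` outside
at most `k` proper subspaces and in the full space. -/
def UpperDensityOne {n : ℕ} (S : Set (Fin n → ℂ)) (k : ℕ) (a : Fin n → ℂ) : Prop :=
  (∃ 𝒱 : Finset (Submodule ℂ (Fin n → ℂ)), 𝒱.card ≤ k ∧ (∀ V ∈ 𝒱, V ≠ ⊤) ∧
    ∀ b : Fin n → ℂ, (∀ V ∈ 𝒱, b ∉ V) →
      liminf (fun N : ℕ => (∑ j ∈ Finset.range N,
        volume {s : ℂ | s ∈ ball (0 : ℂ) ((1 / 2) ^ j) ∧ a + s • b ∉ S} /
          volume (ball (0 : ℂ) ((1 / 2) ^ j))) / (N : ENNReal)) atTop = 0) ∧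
  liminf (fun N : ℕ => (∑ j ∈ Finset.range N,
    volume {y | y ∉ S ∧ y ∈ ball a ((1 / 2) ^ j)} / volume (ball a ((1 / 2) ^ j))) /
      (N : ENNReal)) atTop = 0

/-- The infinitesimal conjugation by the vector field `α + β z + γ z ^ 2`. -/
noncomputable def conjugation {d : ℕ} (x : Coeffs d) (α β γ : ℂ) : ℂ[X] :=
  C α * den x ^ 2 + C β * (num x * den x) + C γ * num x ^ 2 -
    crit x * (C α + C β * X + C γ * X ^ 2)

/-- `S / Q ^ 2` is an infinitesimal deformation of the rational map which keeps the multiplicities of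
the critical points and the coincidences of the critical values. Here `u y` is the speed of the
critical value `y` and `κ c` is the speed of the critical point `c`. -/
def Deformation {d : ℕ} (x : Coeffs d) (S : ℂ[X]) (u κ : ℂ → ℂ) : Prop :=
  S.natDegree ≤ 2 * d ∧ ∀ c : ℂ, (crit x).eval c = 0 →
    (X - C c) ^ ((crit x).rootMultiplicity c + 1) ∣
      S - C (u (map x c)) * den x ^ 2 + C (κ c) * crit x

/-- The speed of the point `f ^ n (c)` under the infinitesimal deformation `S / Q ^ 2`, if the speed of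
`c` is `w`. -/
noncomputable def speed {d : ℕ} (x : Coeffs d) (S : ℂ[X]) (c w : ℂ) : ℕ → ℂ
  | 0 => w
  | n + 1 => S.eval ((map x)^[n] c) / (den x).eval ((map x)^[n] c) ^ 2 +
      (crit x).eval ((map x)^[n] c) / (den x).eval ((map x)^[n] c) ^ 2 * speed x S c w n

/-- A critical orbit relation `f ^ n (c i) = f ^ n' (c i')` between marked critical points. -/
structure OrbitRelation (r : ℕ) where
  i : Fin r
  n : ℕ
  i' : Fin r
  n' : ℕ

/-- The relation holds for the critical points `c i`, and the orbits avoid the poles before the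
relation. -/
def OrbitRelation.Holds {d r : ℕ} (ρ : OrbitRelation r) (x : Coeffs d) (c : Fin r → ℂ) : Prop :=
  (map x)^[ρ.n] (c ρ.i) = (map x)^[ρ.n'] (c ρ.i') ∧
    (∀ j < ρ.n, (den x).eval ((map x)^[j] (c ρ.i)) ≠ 0) ∧
    ∀ j < ρ.n', (den x).eval ((map x)^[j] (c ρ.i')) ≠ 0

/-- The two critical points of the relation are attracted or have infinite orbits. -/
def OrbitRelation.Free {d r : ℕ} (ρ : OrbitRelation r) (x : Coeffs d) (c : Fin r → ℂ) : Prop :=
  (Attracted x (c ρ.i : OnePoint ℂ) ∨ Function.Injective fun j => (map x)^[j] (c ρ.i)) ∧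
    (Attracted x (c ρ.i' : OnePoint ℂ) ∨ Function.Injective fun j => (map x)^[j] (c ρ.i'))

/-- The infinitesimal deformation keeps the relation to first order. -/
def OrbitRelation.Kept {d r : ℕ} (ρ : OrbitRelation r) (x : Coeffs d) (c : Fin r → ℂ) (S : ℂ[X])
    (κ : ℂ → ℂ) : Prop :=
  speed x S (c ρ.i) (κ (c ρ.i)) ρ.n = speed x S (c ρ.i') (κ (c ρ.i')) ρ.n'

/-- The formal sum of the points `c, f (c), …, f ^ (n - 1) (c)` which belongs to the point
`f ^ n (c)`. -/
noncomputable def formalSum {d : ℕ} (x : Coeffs d) (c : ℂ) : ℕ → (ℂ →₀ ℂ)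
  | 0 => Finsupp.single c 1
  | n + 1 => ((crit x).eval ((map x)^[n] c) / (den x).eval ((map x)^[n] c) ^ 2) •
      (formalSum x c n - Finsupp.single ((map x)^[n] c) 1)

/-- The relations are independent: their formal sums are linearly independent, or all the relations are
of the form `f ^ n (c i) = c i'`, `n ≥ 1`, with different `i'`. -/
def Independent {d r N : ℕ} (x : Coeffs d) (c : Fin r → ℂ) (ρ : Fin N → OrbitRelation r) : Prop :=
  (LinearIndependent ℂ fun l => formalSum x (c (ρ l).i) (ρ l).n -
    formalSum x (c (ρ l).i') (ρ l).n') ∨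
  ((∀ l, 1 ≤ (ρ l).n ∧ (ρ l).n' = 0) ∧ Function.Injective fun l => (ρ l).i')

/-- The map `y` with the critical points `c i` satisfies the conditions of the stratum of the map `x`
with the critical points `e i`: the multiplicities of the critical points, the coincidences of the
critical values and the relations. -/
def InStratum {d r N : ℕ} (x : Coeffs d) (e : Fin r → ℂ) (ρ : Fin N → OrbitRelation r) (y : Coeffs d)
    (c : Fin r → ℂ) : Prop :=
  (∀ i, (X - C (c i)) ^ (crit x).rootMultiplicity (e i) ∣ crit y) ∧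
  (∀ i j, map x (e i) = map x (e j) → map y (c i) = map y (c j)) ∧
  ∀ l, (map y)^[(ρ l).n] (c (ρ l).i) = (map y)^[(ρ l).n'] (c (ρ l).i')

/-- `Ψ` is a holomorphic chart of the stratum near `x` with the holomorphic critical points `c`: an
injective holomorphic immersion of an open set `U ∋ 0` whose image consists, near `x`, of the maps in
the stratum. -/
def IsChart {d r N n : ℕ} (x : Coeffs d) (e : Fin r → ℂ) (ρ : Fin N → OrbitRelation r)
    (Ψ : (Fin n → ℂ) → Coeffs d) (c : (Fin n → ℂ) → Fin r → ℂ) (U : Set (Fin n → ℂ)) : Prop :=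
  IsOpen U ∧ 0 ∈ U ∧ DifferentiableOn ℂ Ψ U ∧ DifferentiableOn ℂ c U ∧ Ψ 0 = x ∧ c 0 = e ∧
    Set.InjOn Ψ U ∧ (∀ t ∈ U, Function.Injective (fderiv ℂ Ψ t)) ∧
    (∀ t ∈ U, InStratum x e ρ (Ψ t) (c t)) ∧
    ∃ ε > (0 : ℝ), ∀ (y : Coeffs d) (c' : Fin r → ℂ), ‖y - x‖ < ε → ‖c' - e‖ < ε →
      InStratum x e ρ y c' → ∃ t ∈ U, Ψ t = y ∧ c t = c'

/-! ### transfer -/

/-- `x` defines a rational map of degree `d`. -/
def IsDegree {d : ℕ} (x : Coeffs d) : Prop :=
  IsCoprime (num x) (den x) ∧ max (num x).natDegree (den x).natDegree = d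

/-- `f` is the map of the sphere which is defined by `x`. -/
def Defines {d : ℕ} (x : Coeffs d) (f : OnePoint ℂ → OnePoint ℂ) : Prop :=
  Continuous f ∧ ∀ z : ℂ, (den x).eval z ≠ 0 →
    f (OnePoint.some z) = OnePoint.some ((num x).eval z / (den x).eval z)

open Pool.Agent.H792R2.CE Pool.Agent.H207.TF

theorem transfer {d : ℕ} (hd : 2 ≤ d) {x : Coeffs d} (hx : x ∉ hyperbolic d) :
    x ∈ Pool.Agent.H211.LR.rbad d := by
  intro hgood
  exact hx (Pool.Agent.H211.LR.good_hyp hd hgood)

/-- the map of the sphere -/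
theorem defines_sph {d : ℕ} (hd : 2 ≤ d) {x : Coeffs d} (hx : IsDegree x)
    {f : OnePoint ℂ → OnePoint ℂ} (hf : Defines x f) : f = sph d (num x) (den x) := by
  obtain ⟨hcop, hdeg⟩ := hx
  have hd0 : 0 < d := by omega
  have hP : (num x).natDegree ≤ d := Pool.Agent.H211.LR.PP_deg x
  have hQle : (den x).natDegree ≤ d := Pool.Agent.H211.LR.QQ_deg x
  have hQ0 : den x ≠ 0 := by
    intro h
    have h1 : IsUnit (num x) := by
      rw [h] at hcop
      exact isCoprime_zero_right.1 hcop
    have h2 := Polynomial.natDegree_eq_zero_of_isUnit h1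
    rw [h2, h] at hdeg
    simp at hdeg
    omega
  have hrat : Pool.Agent.Helper114.Herman.IsRat f (num x) (den x) := ⟨hf.1, hcop, hQ0, hf.2⟩
  funext y
  induction y using OnePoint.rec with
  | infty =>
    have h1 := Pool.Agent.Helper114.Herman.rat_formula hrat hdeg.symm hd0 (u := 1) (v := 0)
      (Or.inl one_ne_zero)
    rw [Pool.Agent.Helper114.Herman.pr_zero, Pool.Agent.Helper114.Herman.hom_zero,
      Pool.Agent.Helper114.Herman.hom_zero, one_pow, mul_one, mul_one] at h1
    rw [h1]
    rfl
  | coe z =>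
    have h1 := Pool.Agent.Helper114.Herman.rat_formula hrat hdeg.symm hd0 (u := z) (v := 1)
      (Or.inr one_ne_zero)
    rw [Pool.Agent.Helper114.Herman.pr_one, Pool.Agent.Helper114.Herman.hom_ne hP one_ne_zero,
      Pool.Agent.Helper114.Herman.hom_ne hQle one_ne_zero, one_pow, one_mul, one_mul,
      div_one] at h1
    rw [h1]
    rfl

theorem den_deg {d : ℕ} (hd : 2 ≤ d) {x : Coeffs d} (hx : IsDegree x) (hinf : Attracted x ∞) :
    (den x).natDegree = d := by
  obtain ⟨f, hf, n, -, z, -, -, -, ht⟩ := hinf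
  have hfs := defines_sph hd hx hf
  have hfinf : f ∞ ≠ ∞ := by
    intro h
    have h1 : ∀ k : ℕ, f^[k] (∞ : OnePoint ℂ) = ∞ := by
      intro k
      induction k with
      | zero => rfl
      | succ k ih => rw [Function.iterate_succ_apply', ih, h]
    have h2 : Tendsto (fun _ : ℕ => (∞ : OnePoint ℂ)) atTop (𝓝 (z : OnePoint ℂ)) :=
      ht.congr fun k => h1 _
    exact OnePoint.coe_ne_infty z (tendsto_nhds_unique h2 tendsto_const_nhds)
  refine le_antisymm (Pool.Agent.H211.LR.QQ_deg x) (Polynomial.le_natDegree_of_ne_zero ?_)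
  intro h0
  apply hfinf
  rw [hfs, sph_infty, h0, Pool.Agent.Helper114.Herman.pr_zero]

theorem att_iff {d : ℕ} (hd : 2 ≤ d) {x : Coeffs d} (hx : IsDegree x)
    (hQd : (den x).natDegree = d) (y : OnePoint ℂ) :
    Attracted x y ↔ Att d (num x) (den x) y := by
  constructor
  · rintro ⟨f, hf, h⟩
    rw [defines_sph hd hx hf] at h
    exact h
  · intro h
    refine ⟨sph d (num x) (den x), ⟨B1_continuous hx.1 (Pool.Agent.H211.LR.PP_deg x) hQd,
      fun z hz => sph_coe_of_ne hz⟩, h⟩

theorem base_of {d : ℕ} (hd : 2 ≤ d) {x : Coeffs d} (h : AttractedOrCE x) :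
    Base d (num x) (den x) := by
  obtain ⟨hx, hinf, hc⟩ := h
  have hQd := den_deg hd hx hinf
  exact ⟨hd, hx.1, Pool.Agent.H211.LR.PP_deg x, hQd, (att_iff hd hx hQd _).1 hinf,
    fun c hc' => (hc c hc').imp (att_iff hd hx hQd _).1 id⟩

theorem sbase_of {d : ℕ} (hd : 2 ≤ d) {x : Coeffs d} (h : AttractedOrSummable x) :
    SBase d (num x) (den x) := by
  obtain ⟨hx, hinf, hnull, hc⟩ := h
  have hQd := den_deg hd hx hinf
  have hset : {z : ℂ | ¬ Att d (num x) (den x) (z : OnePoint ℂ)} =
      {z : ℂ | ¬ Attracted x (z : OnePoint ℂ)} := by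
    ext z
    exact not_congr (att_iff hd hx hQd _).symm
  refine ⟨hd, hx.1, Pool.Agent.H211.LR.PP_deg x, hQd, (att_iff hd hx hQd _).1 hinf,
    by rw [hset]; exact hnull, fun {c} hc' hA => ?_, fun {c} hc' hA => ?_⟩
  · exact ((hc c hc').resolve_left fun h' => hA ((att_iff hd hx hQd _).1 h')).1
  · exact ((hc c hc').resolve_left fun h' => hA ((att_iff hd hx hQd _).1 h')).2

theorem summable_of_ce {d : ℕ} (hd : 2 ≤ d) {x : Coeffs d} (h : AttractedOrCE x) :
    AttractedOrSummable x ∧ Growing x := by
  have B := base_of hd h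
  obtain ⟨hx, hinf, hc⟩ := h
  have hQd := den_deg hd hx hinf
  have hset : {z : ℂ | ¬ Attracted x (z : OnePoint ℂ)} =
      {z : ℂ | ¬ Att d (num x) (den x) (z : OnePoint ℂ)} := by
    ext z
    exact not_congr (att_iff hd hx hQd _)
  refine ⟨⟨hx, hinf, by rw [hset]; exact B.null, fun c hc' => ?_⟩, ?_⟩
  · by_cases hA : Att d (num x) (den x) (c : OnePoint ℂ)
    · exact Or.inl ((att_iff hd hx hQd _).2 hA)
    · exact Or.inr ⟨B.ne hc' hA, B.summ hc' hA⟩
  · obtain ⟨μ, hμ, h⟩ := B.grow
    exact ⟨μ, hμ, h.mono fun n hn c hc' => (hn c hc').imp (att_iff hd hx hQd _).2 id⟩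

theorem grow_of {d : ℕ} (hd : 2 ≤ d) {x : Coeffs d} (h : AttractedOrSummable x)
    (hG : Growing x) :
    ∃ μ : ℝ, 1 < μ ∧ ∃ᶠ n : ℕ in atTop, Pool.Agent.H211.LR.GrR d (num x) (den x) μ n := by
  have hQd := den_deg hd h.1 h.2.1
  obtain ⟨μ, hμ, hf⟩ := hG
  exact ⟨μ, hμ, hf.mono fun n hn c hc' => (hn c hc').imp (att_iff hd h.1 hQd _).1 id⟩

theorem transversal_iff {d n : ℕ} (hd : 2 ≤ d) {p : (Fin n → ℂ) → Coeffs d} {a : Fin n → ℂ}
    (h : AttractedOrSummable (p a)) :
    Transversal p a ↔ ∀ c : ℂ, (wr (Pool.Agent.H211.LR.PP (p a))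
      (Pool.Agent.H211.LR.QQ (p a))).eval c = 0 →
      ¬ Att d (Pool.Agent.H211.LR.PP (p a)) (Pool.Agent.H211.LR.QQ (p a)) (c : OnePoint ℂ) →
      ∃ v : Fin n → ℂ, ∑' j, term (Pool.Agent.H211.LR.PP (p a)) (Pool.Agent.H211.LR.QQ (p a))
        (varS (p a) (fderiv ℂ p a v)) c j ≠ 0 := by
  have hQd := den_deg hd h.1 h.2.1
  constructor
  · intro hT c hc hA
    exact hT c hc fun h' => hA ((att_iff hd h.1 hQd _).1 h')
  · intro hT c hc hA
    exact hT c hc fun h' => hA ((att_iff hd h.1 hQd _).2 h')

theorem speed_eq {d : ℕ} (x : Coeffs d) (S : ℂ[X]) (c w : ℂ) (n : ℕ) :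
    speed x S c w n = spd (num x) (den x) S c w n := by
  induction n with
  | zero => rfl
  | succ n ih =>
    rw [speed, spd, ih]
    rfl

theorem kept_iff {d r : ℕ} (ρ : OrbitRelation r) (x : Coeffs d) (c : Fin r → ℂ) (S : ℂ[X])
    (κ : ℂ → ℂ) : ρ.Kept x c S κ ↔
      (⟨c ρ.i, ρ.n, c ρ.i', ρ.n'⟩ : Reln).Keep (num x) (den x) S κ := by
  unfold OrbitRelation.Kept Reln.Keep
  rw [speed_eq, speed_eq]

theorem formalSum_eq {d : ℕ} (x : Coeffs d) (c : ℂ) (n : ℕ) :
    formalSum x c n = dv (num x) (den x) c n := by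
  induction n with
  | zero => rfl
  | succ n ih =>
    rw [formalSum, dv, ih]
    rfl

theorem density_of {d n : ℕ} (hd : 2 ≤ d) {p : (Fin n → ℂ) → Coeffs d} {Λ : Set (Fin n → ℂ)}
    (hΛ : IsOpen Λ) (hp : DifferentiableOn ℂ p Λ) {a : Fin n → ℂ} (ha : a ∈ Λ)
    (h : AttractedOrCE (p a)) (hT : Transversal p a) :
    DensityOne {y | p y ∈ hyperbolic d} (2 * (d - 1)) a := by
  obtain ⟨⟨𝒱, h1, h2, h3⟩, h4⟩ := famA a_PUIS Pool.Agent.H591.TF207.t_INSTG hΛ ha hp
    (base_of hd h) ((transversal_iff hd (summable_of_ce hd h).1).1 hT)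
  refine ⟨⟨𝒱, h1, h2, fun b hb => ?_⟩, ?_⟩
  · obtain ⟨c, hc, C, hC, r₁, hr₁, h6⟩ := h3 b hb
    refine ⟨c, hc, C, hC, r₁, hr₁, fun r hr hrr => (measure_mono ?_).trans (h6 r hr hrr)⟩
    rintro s ⟨hs, hs2⟩
    exact ⟨hs, transfer hd hs2⟩
  · refine tendsto_of_tendsto_of_tendsto_of_le_of_le tendsto_const_nhds h4 (fun _ => zero_le)
      fun r => ?_
    apply ENNReal.div_le_div_right
    apply measure_mono
    rintro y ⟨hy1, hy2⟩
    exact ⟨transfer hd hy2, hy1⟩

theorem liminf_of_le {p q : ℕ → ENNReal} (h : ∀ k, p k ≤ q k) (hq : liminf q atTop = 0) :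
    liminf p atTop = 0 := by
  refine le_antisymm ?_ zero_le
  rw [← hq]
  exact Filter.liminf_le_liminf (Eventually.of_forall h)

theorem upper_of {d n : ℕ} (hd : 2 ≤ d) {p : (Fin n → ℂ) → Coeffs d} {Λ : Set (Fin n → ℂ)}
    (hΛ : IsOpen Λ) (hp : DifferentiableOn ℂ p Λ) {a : Fin n → ℂ} (ha : a ∈ Λ)
    (h : AttractedOrSummable (p a)) (hG : Growing (p a)) (hT : Transversal p a) :
    UpperDensityOne {y | p y ∈ hyperbolic d} (2 * (d - 1)) a := by
  obtain ⟨μ, hμ, hexp⟩ := grow_of hd h hG
  obtain ⟨⟨𝒱, h1, h2, h3⟩, h4⟩ := famW a_PUIS Pool.Agent.H591.TF207.t_INSTG hΛ ha hp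
    (sbase_of hd h) hμ hexp ((transversal_iff hd h).1 hT)
  refine ⟨⟨𝒱, h1, h2, fun b hb => liminf_of_le (fun N => ?_) (h3 b hb)⟩,
    liminf_of_le (fun N => ?_) h4⟩
  · unfold Pool.Agent.H211.LD.avg Pool.Agent.H211.LR.propLine
    apply ENNReal.div_le_div_right
    refine Finset.sum_le_sum fun k _ => ENNReal.div_le_div_right ?_ _
    exact measure_mono fun s hs => ⟨hs.1, transfer hd hs.2⟩
  · unfold Pool.Agent.H211.LD.avg Pool.Agent.H211.LR.prop
    apply ENNReal.div_le_div_right
    refine Finset.sum_le_sum fun k _ => ENNReal.div_le_div_right ?_ _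
    exact measure_mono fun s hs => ⟨transfer hd hs.1, hs.2⟩

theorem null_of {d n : ℕ} (hd : 2 ≤ d) {p : (Fin n → ℂ) → Coeffs d} {Λ : Set (Fin n → ℂ)}
    (hΛ : IsOpen Λ) (hp : DifferentiableOn ℂ p Λ) :
    volume {a | a ∈ Λ ∧ AttractedOrSummable (p a) ∧ Growing (p a) ∧ Transversal p a ∧
      p a ∉ hyperbolic d} = 0 :=
  fam_nullW a_PUIS Pool.Agent.H591.TF207.t_INSTG hΛ hp (fun _ ha => ha.1)
    (fun _ ha => sbase_of hd ha.2.1) (fun _ ha => grow_of hd ha.2.1 ha.2.2.1)
    (fun _ ha => transfer hd ha.2.2.2.2) fun _ ha => (transversal_iff hd ha.2.1).1 ha.2.2.2.1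

/-- **Collet-Eckmann maps in transversal families and in strata.** -/
theorem result (d : ℕ) (hd : 2 ≤ d) :
    -- the Collet-Eckmann maps belong to the larger class
    (∀ x : Coeffs d, AttractedOrCE x → AttractedOrSummable x ∧ Growing x) ∧
    -- (1) transversal families
    (∀ (n : ℕ) (Λ : Set (Fin n → ℂ)) (p : (Fin n → ℂ) → Coeffs d), IsOpen Λ →
      DifferentiableOn ℂ p Λ →
      (∀ a ∈ Λ, AttractedOrCE (p a) → Transversal p a →
        DensityOne {y | p y ∈ hyperbolic d} (2 * (d - 1)) a) ∧
      (∀ a ∈ Λ, AttractedOrSummable (p a) → Growing (p a) → Transversal p a →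
        UpperDensityOne {y | p y ∈ hyperbolic d} (2 * (d - 1)) a) ∧
      volume {a | a ∈ Λ ∧ AttractedOrSummable (p a) ∧ Growing (p a) ∧ Transversal p a ∧
        p a ∉ hyperbolic d} = 0) ∧
    -- (2) families which contain the deformations of a stratum are transversal
    (∀ (n : ℕ) (p : (Fin n → ℂ) → Coeffs d) (a : Fin n → ℂ), AttractedOrSummable (p a) →
      (∀ z : ℂ, (crit (p a)).eval z = 0 → (den (p a)).eval z ≠ 0) →
      ∀ (r : ℕ) (c : Fin r → ℂ), (∀ i, (crit (p a)).eval (c i) = 0) →
      ∀ R : List (OrbitRelation r), (∀ ρ ∈ R, ρ.Holds (p a) c ∧ ρ.Free (p a) c) →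
      (∀ (S : ℂ[X]) (u κ : ℂ → ℂ), Deformation (p a) S u κ → (∀ ρ ∈ R, ρ.Kept (p a) c S κ) →
        ∃ (v : Fin n → ℂ) (α β γ : ℂ),
          S = variation (p a) (fderiv ℂ p a v) + conjugation (p a) α β γ) →
      Transversal p a) ∧
    -- (3) strata
    (∀ x : Coeffs d, (IsCoprime (num x) (den x) ∧
      max (num x).natDegree (den x).natDegree = d) → Attracted x ∞ →
      Dense {z : ℂ | Attracted x (z : OnePoint ℂ)} →
      (crit x).natDegree = 2 * d - 2 → (∀ z : ℂ, (crit x).eval z = 0 → (den x).eval z ≠ 0) →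
      ∀ (r N : ℕ) (e : Fin r → ℂ) (ρ : Fin N → OrbitRelation r), Function.Injective e →
      (∀ z : ℂ, (crit x).eval z = 0 ↔ ∃ i, e i = z) →
      (∀ l, (ρ l).Holds x e) → Independent x e ρ →
      ∃ (n : ℕ) (Ψ : (Fin n → ℂ) → Coeffs d) (c : (Fin n → ℂ) → Fin r → ℂ)
        (U : Set (Fin n → ℂ)),
        n + N = (Finset.univ.image fun i => map x (e i)).card + 4 ∧ IsChart x e ρ Ψ c U ∧
        (∀ t ∈ U, AttractedOrSummable (Ψ t) → (∀ l, (ρ l).Free (Ψ t) (c t)) →
          Transversal Ψ t ∧
          (AttractedOrCE (Ψ t) →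
            DensityOne {s | Ψ s ∈ hyperbolic d} (2 * (d - 1)) t) ∧
          (Growing (Ψ t) → UpperDensityOne {s | Ψ s ∈ hyperbolic d} (2 * (d - 1)) t)) ∧
        volume {t | t ∈ U ∧ AttractedOrSummable (Ψ t) ∧ Growing (Ψ t) ∧
          (∀ l, (ρ l).Free (Ψ t) (c t)) ∧ Ψ t ∉ hyperbolic d} = 0) := by
  refine ⟨fun x hx => summable_of_ce hd hx, fun n Λ p hΛ hp =>
    ⟨fun a ha h hT => density_of hd hΛ hp ha h hT,
      fun a ha h hG hT => upper_of hd hΛ hp ha h hG hT, null_of hd hΛ hp⟩, ?_, ?_⟩
  · intro n p a h hpole r c hc R hR hcov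
    have hQd := den_deg hd h.1 h.2.1
    refine (transversal_iff hd h).2 ?_
    refine famB (p := p) (x := a) (sbase_of hd h) hpole
      (R := R.map fun ρ => (⟨c ρ.i, ρ.n, c ρ.i', ρ.n'⟩ : Reln)) ?_ ?_
    · intro σ hσ
      obtain ⟨ρ, hρ, rfl⟩ := List.mem_map.1 hσ
      obtain ⟨⟨h1, h2, h3⟩, h4, h5⟩ := hR ρ hρ
      exact ⟨hc _, hc _, h1, h2, h3, h4.imp (att_iff hd h.1 hQd _).1 id,
        h5.imp (att_iff hd h.1 hQd _).1 id⟩
    · intro S u κ hS hDf hK
      exact hcov S u κ ⟨hS, hDf⟩ fun ρ hρ =>
        (kept_iff ρ (p a) c S κ).2 (hK _ (List.mem_map.2 ⟨ρ, hρ, rfl⟩))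
  · intro x hx hinf hdense hdeg hpole r N e ρ he hall hρ hind
    have hQd := den_deg hd hx hinf
    have hset : {z : ℂ | Att d (num x) (den x) (z : OnePoint ℂ)} =
        {z : ℂ | Attracted x (z : OnePoint ℂ)} := by
      ext z
      exact (att_iff hd hx hQd _).symm
    have hce : ∀ i, (crit x).eval (e i) = 0 := fun i => (hall _).2 ⟨i, rfl⟩
    have hind' : LinearIndependent ℂ fun l => dv (num x) (den x) (e (ρ l).i) (ρ l).n -
        dv (num x) (den x) (e (ρ l).i') (ρ l).n' := by
      rcases hind with h | ⟨h1, h2⟩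
      · simp only [formalSum_eq] at h
        exact h
      · have h3 := indep_crit (P := num x) (Q := den x) (c := fun l => e (ρ l).i)
          (c' := fun l => e (ρ l).i') (n := fun l => (ρ l).n) (fun l => hce _) (fun l => hce _)
          (fun l => (h1 l).1) (fun a b hab => h2 (he hab))
        have h4 : ∀ l, (ρ l).n' = 0 := fun l => (h1 l).2
        simp only [h4]
        exact h3
    obtain ⟨n, Ψ, c, U, g1, g2, g3, g4, g5, g6, g7, g8, g9, g10, g11, g12⟩ :=
      famC (d := d) (x := x) hd hx.1 hQd (by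
        change Dense {z : ℂ | Att d (num x) (den x) (z : OnePoint ℂ)}
        rw [hset]
        exact hdense) hdeg hpole he hall
        (ρ := fun l => (⟨(ρ l).i, (ρ l).n, (ρ l).i', (ρ l).n'⟩ : RI r))
        (fun l => (hρ l).1) (fun l => (hρ l).2.1) (fun l => (hρ l).2.2) hind'
    have hT : ∀ t ∈ U, AttractedOrSummable (Ψ t) → (∀ l, (ρ l).Free (Ψ t) (c t)) →
        Transversal Ψ t := by
      intro t ht h hF
      have hQd' := den_deg hd h.1 h.2.1
      refine (transversal_iff hd h).2 (g12 t ht (sbase_of hd h) fun l => ?_)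
      exact ⟨(hF l).1.imp (att_iff hd h.1 hQd' _).1 id, (hF l).2.imp (att_iff hd h.1 hQd' _).1 id⟩
    refine ⟨n, Ψ, c, U, g1, ⟨g2, g3, g4, g5, g6, g7, g8, g9, g10, g11⟩,
      fun t ht h hF => ⟨hT t ht h hF, fun h' => density_of hd g2 g4 ht h' (hT t ht h hF),
        fun hG => upper_of hd g2 g4 ht h hG (hT t ht h hF)⟩, ?_⟩
    refine measure_mono_null ?_ (null_of hd g2 g4)
    rintro t ⟨ht, h, hG, hF, hn⟩
    exact ⟨ht, h, hG, hT t ht h hF, hn⟩

end Pool.Agent.Results.MP_8f2e1c_an.ColletEckmannStrata
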