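import Pool.Agent.H207.BT.FinT
import Pool.Agent.H211.HY.Bridge

/-!
# All combinatorial types of hyperbolic maps near Collet-Eckmann rational maps

Let `f = P / Q` be a rational map of degree `d ≥ 2`, not a flexible Lattès map, all of whose critical
points satisfy the Collet-Eckmann condition: the spherical derivatives of the iterates at the
critical values grow exponentially (then the Julia set is the whole sphere). The critical points may
have any multiplicities and may be recurrent to each other at any speed. Let `c 1, …, c k` be the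
distinct critical points and `m 1, …, m k` their multiplicities. Then for EVERY map `φ` of the set of
indices to itself there are rational maps `g` of degree `d` arbitrarily close to `f` with critical
points `c' i` near `c i`, of the same multiplicities `m i`, such that the first critical point in the
forward orbit of `c' i` (after `c' i` itself) is `c' (φ i)`, for all `i`. The approximation is
exponential in terms of the times: there are `a > 0`, `A` such that for all large `n` there is such a
map `g` at distance at most `exp (- a n)` from `f` for which all these times are at most `n`, and all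
rational maps at distance at most `exp (- A n)` from `g` are hyperbolic.

For example, if `φ` is the identity then `g` has `k` different superattracting cycles, each of which
contains exactly one critical point; if `φ` is a cyclic permutation, there is one superattracting
cycle, it contains all the critical points, in a prescribed order; if `φ` is constant, all critical
points are mapped onto one superattracting cycle which contains exactly one critical point.

The rational map is described in homogeneous coordinates of the sphere: the point with the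
homogeneous coordinates `p = (u, v) ≠ 0` is `u / v`, and `f` is induced by the map
`F (u, v) = (v ^ d * P (u / v), v ^ d * Q (u / v))` of `ℂ²`.
-/

set_option autoImplicit false

open Filter Topology Polynomial

namespace Pool.Agent.Results.MP_8f2e1c_an.CombinatorialTypes

/-- The homogeneous map `F` of `ℂ²` which induces the rational map `P / Q` of degree `d`. -/
noncomputable def lift (d : ℕ) (P Q : ℂ[X]) (p : ℂ × ℂ) : ℂ × ℂ :=
  (∑ j ∈ Finset.range (d + 1), P.coeff j * p.1 ^ j * p.2 ^ (d - j),
   ∑ j ∈ Finset.range (d + 1), Q.coeff j * p.1 ^ j * p.2 ^ (d - j))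

/-- The Jacobian determinant of `F`. The critical points of the rational map are the points whose
homogeneous coordinates are its zeros (with the same multiplicities). -/
noncomputable def jac (d : ℕ) (P Q : ℂ[X]) (p : ℂ × ℂ) : ℂ := (fderiv ℂ (lift d P Q) p).det

/-- The square of the Euclidean norm of `ℂ²`. -/
noncomputable def normSq (p : ℂ × ℂ) : ℝ := ‖p.1‖ ^ 2 + ‖p.2‖ ^ 2

/-- The derivative of the rational map with respect to the spherical metric, at the point with the
homogeneous coordinates `p ≠ 0`. -/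
noncomputable def sphericalDeriv (d : ℕ) (P Q : ℂ[X]) (p : ℂ × ℂ) : ℝ :=
  ‖jac d P Q p‖ * normSq p / ((d : ℝ) * normSq (lift d P Q p))

/-- The Collet-Eckmann condition for the critical point `c`: the spherical derivatives of the
iterates at the critical value grow exponentially. -/
def ColletEckmann (d : ℕ) (P Q : ℂ[X]) (c : ℂ × ℂ) : Prop :=
  ∃ C > (0 : ℝ), ∃ μ > (1 : ℝ), ∀ n : ℕ,
    C * μ ^ n ≤ ∏ j ∈ Finset.range n, sphericalDeriv d P Q ((lift d P Q)^[j + 1] c)

/-- The chordal distance (with values in `[0, 1]`) of the points of the sphere with the homogeneous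
coordinates `p` and `q`. -/
noncomputable def chordal (p q : ℂ × ℂ) : ℝ :=
  ‖p.1 * q.2 - p.2 * q.1‖ / Real.sqrt (normSq p * normSq q)

/-- The binary quartic form with the coefficients `r`. -/
noncomputable def quartic (r : Fin 5 → ℂ) (p : ℂ × ℂ) : ℂ :=
  ∑ j : Fin 5, r j * p.1 ^ (j : ℕ) * p.2 ^ (4 - (j : ℕ))

/-- Flexible Lattès maps: for a quartic form `R ≠ 0` the pullback of the quadratic differential
`(v du - u dv)² / R (u, v) = dz² / R (z, 1)` is its multiple by `d`. (So the map is covered by a
homothety with a factor whose square is `d`; the factor is an integer.) -/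
def FlexibleLattes (d : ℕ) (P Q : ℂ[X]) : Prop :=
  ∃ r : Fin 5 → ℂ, r ≠ 0 ∧ ∀ p : ℂ × ℂ,
    quartic r p * jac d P Q p ^ 2 = (d : ℂ) ^ 3 * quartic r (lift d P Q p)

/-- `c` is a critical point of the map `f` of the sphere: `f` is not locally injective at `c`. -/
def Critical (f : OnePoint ℂ → OnePoint ℂ) (c : OnePoint ℂ) : Prop :=
  ¬ ∃ U ∈ nhds c, Set.InjOn f U

/-- The map `f` of the sphere is hyperbolic: all critical points are attracted by periodic sinks
(the formula of the frozen statement). -/
def Hyperbolic (f : OnePoint ℂ → OnePoint ℂ) : Prop :=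
  ∀ c : OnePoint ℂ, Critical f c → ∃ z : OnePoint ℂ, ∃ n : ℕ, 0 < n ∧ f^[n] z = z ∧
    (∃ U ∈ nhds z, ∀ w ∈ U, Tendsto (fun k : ℕ => f^[n * k] w) atTop (nhds z)) ∧
    Tendsto (fun k : ℕ => f^[n * k] c) atTop (nhds z)

/-- The coefficients of `P'`, `Q'` (of degree at most `d`) are at distance at most `r` from those of
`P`, `Q`. -/
def Near (d : ℕ) (P Q P' Q' : ℂ[X]) (r : ℝ) : Prop :=
  P'.natDegree ≤ d ∧ Q'.natDegree ≤ d ∧
    ∀ i : ℕ, ‖P'.coeff i - P.coeff i‖ ≤ r ∧ ‖Q'.coeff i - Q.coeff i‖ ≤ r

/-- `P / Q` is a hyperbolic rational map of degree `d` (as in the frozen statement). -/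
def IsHyperbolic (d : ℕ) (P Q : ℂ[X]) : Prop :=
  IsCoprime P Q ∧ max P.natDegree Q.natDegree = d ∧ ∃ f : OnePoint ℂ → OnePoint ℂ, Continuous f ∧
    (∀ z : ℂ, Q.eval z ≠ 0 → f (OnePoint.some z) = OnePoint.some (P.eval z / Q.eval z)) ∧
    Hyperbolic f

/-- The points with the homogeneous coordinates `c i` are the distinct critical points of `P / Q`, and
their multiplicities are `m i`. -/
def IsCriticalData (d : ℕ) (P Q : ℂ[X]) {k : ℕ} (c : Fin k → ℂ × ℂ) (m : Fin k → ℕ) : Prop :=
  (∀ i, c i ≠ 0) ∧ (∀ i, 1 ≤ m i) ∧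
    (∀ i j, i ≠ j → (c i).1 * (c j).2 - (c i).2 * (c j).1 ≠ 0) ∧
    ∃ a : ℂ, a ≠ 0 ∧ ∀ p, jac d P Q p = a * ∏ i, (p.1 * (c i).2 - p.2 * (c i).1) ^ m i

/-- The first critical point in the forward orbit `F c, F (F c), …` of `c` is the critical point
`c'`, and it is reached after at most `n` iterates: an iterate `l`, `1 ≤ l ≤ n`, maps `c` to `c'`, and
the points between are not critical. -/
def FirstHits (d : ℕ) (P Q : ℂ[X]) (n : ℕ) (c c' : ℂ × ℂ) : Prop :=
  ∃ l : ℕ, 1 ≤ l ∧ l ≤ n ∧ chordal ((lift d P Q)^[l] c) c' = 0 ∧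
    ∀ j : ℕ, 1 ≤ j → j < l → jac d P Q ((lift d P Q)^[j] c) ≠ 0

/-- **All combinatorial types of hyperbolic maps near rational maps all of whose critical points are
Collet-Eckmann**, with the exception of the flexible Lattès maps: for every self-map `φ` of the set of
the critical points there are, exponentially close, rational maps with the same multiplicities of
the critical points, for which the first critical point in the forward orbit of the `i`-th critical
point is the `φ i`-th one, together with exponentially large balls of hyperbolic maps. -/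
theorem result (d : ℕ) (hd : 2 ≤ d) (P Q : ℂ[X]) (hPQ : IsCoprime P Q)
    (hdeg : max P.natDegree Q.natDegree = d)
    (hcrit : ∀ c : ℂ × ℂ, c ≠ 0 → jac d P Q c = 0 → ColletEckmann d P Q c)
    (hL : ¬ FlexibleLattes d P Q) :
    ∃ (k : ℕ) (c : Fin k → ℂ × ℂ) (m : Fin k → ℕ), IsCriticalData d P Q c m ∧
      ∀ φ : Fin k → Fin k, ∃ a > (0 : ℝ), ∃ A : ℝ, ∃ n₀ : ℕ, ∀ n ≥ n₀,
        ∃ (P' Q' : ℂ[X]) (c' : Fin k → ℂ × ℂ),
          Near d P Q P' Q' (Real.exp (-(a * n))) ∧ IsHyperbolic d P' Q' ∧
          IsCriticalData d P' Q' c' m ∧ (∀ i, chordal (c' i) (c i) ≤ Real.exp (-(a * n))) ∧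
          (∀ i, FirstHits d P' Q' n (c' i) (c' (φ i))) ∧
          ∀ P'' Q'' : ℂ[X], Near d P' Q' P'' Q'' (Real.exp (-(A * n))) →
            IsHyperbolic d P'' Q'' := by
  have hPQ' := Pool.Agent.H790R3.RB.PQ Pool.Agent.H790R3.RB.SP d (by omega)
  obtain ⟨x, hx, hP, hQ, -⟩ := hPQ'.2 P Q hPQ hdeg
  obtain ⟨-, -, hcx, hbx, -⟩ := hPQ'.1 x hx
  have hlift : lift d P Q = Pool.Agent.H790R3.RB.hF x := by
    rw [← hP, ← hQ]
    exact Pool.Agent.H211.HY.lft_eq x hcx
  have hjac : ∀ p, jac d P Q p = Pool.Agent.H790R3.RB.wr x p := fun p => by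
    unfold jac
    rw [hlift]
    exact Pool.Agent.H211.HY.jac_eq hd x p
  have hsd : ∀ p, sphericalDeriv d P Q p = Pool.Agent.H211.HY.sd x p := fun p => by
    unfold sphericalDeriv Pool.Agent.H211.HY.sd
    rw [hjac, hlift]
    rfl
  have hce : Pool.Agent.H211.HY.CE x := by
    intro c hc hw
    obtain ⟨C, hC, μ, hμ, h⟩ := hcrit c hc (by rw [hjac]; exact hw)
    refine ⟨C, hC, μ, hμ, fun n => (h n).trans_eq ?_⟩
    unfold Pool.Agent.H211.HY.sdn
    refine Finset.prod_congr rfl fun j _ => ?_
    rw [hsd, hlift, Function.iterate_succ_apply]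
  have hlat : ¬ Pool.Agent.H211.HY.Lat x := by
    rintro ⟨r, hr, h⟩
    refine hL ⟨r, hr, fun p => ?_⟩
    have hq : ∀ q, quartic r q = Pool.Agent.H211.HY.quar r q := fun q => by
      unfold quartic Pool.Agent.H211.HY.quar
      exact Finset.sum_congr rfl fun j _ => by rw [mul_assoc]
    rw [hq, hq, hjac, hlift]
    exact h p
  -- translation of the approximating maps
  have hhyp : ∀ z : Pool.Agent.H790R3.RB.CV d, Pool.Agent.H790R3.RB.ND z →
      Pool.Agent.H790R3.RB.HypTop (Pool.Agent.H790R3.RB.sp z) →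
      IsHyperbolic d (Pool.Agent.H790R3.RB.pol z 0) (Pool.Agent.H790R3.RB.pol z 1) := by
    intro z hz hz3
    obtain ⟨h1, h2, h3, h4, h5⟩ := hPQ'.1 z hz
    exact ⟨h1, h2, Pool.Agent.H790R3.RB.sp z, (Pool.Agent.H790R3.RB.SP d z (by omega) hz).1, h5,
      hz3⟩
  obtain ⟨k, c, m, a₀, ha₀, hm, hc0, hcc, hfac, H⟩ :=
    Pool.Agent.H207.BT.rateT hd hx (Pool.Agent.H207.BT.main_typT (x := x) ⟨hd, hx, hce, hlat⟩)
  refine ⟨k, c, m, ⟨hc0, hm, hcc, a₀, ha₀, fun p => ?_⟩, fun φ => ?_⟩
  · rw [hjac]
    exact hfac p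
  · obtain ⟨a, ha, A, n₀, H'⟩ := H φ
    refine ⟨a, ha, A, n₀, fun n hn => ?_⟩
    obtain ⟨z, c', a', hz1, hz2, ha', hc0', hcc', hfac', hcho, hhit, hball⟩ := H' n hn
    obtain ⟨h1, h2, h3, h4, h5⟩ := hPQ'.1 z hz2
    have hliftz : lift d (Pool.Agent.H790R3.RB.pol z 0) (Pool.Agent.H790R3.RB.pol z 1) =
        Pool.Agent.H790R3.RB.hF z := Pool.Agent.H211.HY.lft_eq z h3
    have hjacz : ∀ p, jac d (Pool.Agent.H790R3.RB.pol z 0) (Pool.Agent.H790R3.RB.pol z 1) p =
        Pool.Agent.H790R3.RB.wr z p := fun p => by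
      unfold jac
      rw [hliftz]
      exact Pool.Agent.H211.HY.jac_eq hd z p
    have hnzz : ∀ (p : ℂ × ℂ), p ≠ 0 → ∀ n : ℕ, (Pool.Agent.H790R3.RB.hF z)^[n] p ≠ 0 :=
      Pool.Agent.H211.HY.p_CHO.2.2.2.2 d z hd hz2 |>.2.2.2.1 |> fun h p hp n => h n p hp
    have hclose : ∀ (i : Fin 2) (j : ℕ), ‖(Pool.Agent.H790R3.RB.pol z i).coeff j -
        (Pool.Agent.H790R3.RB.pol x i).coeff j‖ ≤ Real.exp (-(a * n)) := by
      intro i j
      by_cases hj : j < d + 1
      · have e1 := h3 i ⟨j, hj⟩
        have e2 := hcx i ⟨j, hj⟩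
        simp only at e1 e2
        rw [e1, e2]
        exact (norm_le_pi_norm (z - x) (i, ⟨j, hj⟩)).trans hz1
      · rw [h4 i j (by omega), hbx i j (by omega), sub_zero, norm_zero]
        exact (Real.exp_pos _).le
    have hyp : Pool.Agent.H790R3.RB.HypTop (Pool.Agent.H790R3.RB.sp z) := by
      refine (hball z ?_).2
      rw [sub_self, norm_zero]
      exact (Real.exp_pos _).le
    refine ⟨_, _, c', ⟨(le_max_left _ _).trans h2.le, (le_max_right _ _).trans h2.le, fun i => ?_⟩,
      hhyp z hz2 hyp, ⟨hc0', hm, hcc', a', ha', fun p => ?_⟩, hcho, fun i => ?_, ?_⟩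
    · rw [← hP, ← hQ]
      exact ⟨hclose 0 i, hclose 1 i⟩
    · rw [hjacz]
      exact hfac' p
    · obtain ⟨l, hl1, hl2, hl3, hl4⟩ := hhit i
      refine ⟨l, hl1, hl2, ?_, fun j hj1 hj2 => ?_⟩
      · rw [hliftz]
        exact (Pool.Agent.H211.HY.p_CHO.2.2.1 _ _ (hnzz _ (hc0' i) l) (hc0' _)).2 hl3
      · rw [hjacz, hliftz]
        exact hl4 j hj1 hj2
    · intro P'' Q'' hn''
      obtain ⟨hd1, hd2, hco⟩ := hn''
      -- the coefficient vector of `P''`, `Q''`
      let w : Pool.Agent.H790R3.RB.CV d := fun q => if q.1 = 0 then P''.coeff q.2 else Q''.coeff q.2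
      have hw0 : ∀ j : Fin (d + 1), w (0, j) = P''.coeff j := fun j => by simp [w]
      have hw1 : ∀ j : Fin (d + 1), w (1, j) = Q''.coeff j := fun j => by simp [w]
      have hwz : ‖w - z‖ ≤ Real.exp (-(A * n)) := by
        refine (pi_norm_le_iff_of_nonneg (Real.exp_pos _).le).2 ?_
        rintro ⟨i, j⟩
        rw [Pi.sub_apply]
        have e0 := h3 0 j
        have e1 := h3 1 j
        fin_cases i
        · have := (hco j).1
          rw [e0] at this
          simpa [hw0] using this
        · have := (hco j).2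
          rw [e1] at this
          simpa [hw1] using this
      obtain ⟨hwn, hwh⟩ := hball w hwz
      obtain ⟨g1, g2, g3, g4, g5⟩ := hPQ'.1 w hwn
      have eP : Pool.Agent.H790R3.RB.pol w 0 = P'' := by
        ext j
        by_cases hj : j < d + 1
        · have := g3 0 ⟨j, hj⟩
          simp only at this
          rw [this, hw0]
        · rw [g4 0 j (by omega), coeff_eq_zero_of_natDegree_lt (by omega)]
      have eQ : Pool.Agent.H790R3.RB.pol w 1 = Q'' := by
        ext j
        by_cases hj : j < d + 1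
        · have := g3 1 ⟨j, hj⟩
          simp only at this
          rw [this, hw1]
        · rw [g4 1 j (by omega), coeff_eq_zero_of_natDegree_lt (by omega)]
      have := hhyp w hwn hwh
      rwa [eP, eQ] at this

end Pool.Agent.Results.MP_8f2e1c_an.CombinatorialTypes
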