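import Pool.Agent.H211.AD.RFin

/-!
# Collet-Eckmann rational maps are Lebesgue density points of hyperbolicity

Let `f = P / Q` be a rational map of degree `d ≥ 2`, normalised so that `∞` lies in the basin of an
attracting cycle which does not contain `∞`. Let `S` be the set of the pairs `(P', Q')` of polynomials
of degree at most `d` which define a hyperbolic rational map of degree `d` (the same formula as in
the frozen statement).

(1) Suppose that every critical point which is not attracted by an attracting cycle satisfies the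
Collet-Eckmann condition. This is the only hypothesis: the critical points may be multiple, there may
be several of them, they may be recurrent to each other at any speed (no condition of slow
recurrence), and nothing is assumed about the Julia set. Then almost every point of the plane is
attracted; for all directions `(H, G)` outside at most `4 (d - 1)` proper subspaces the area of the set
of the `s`, `|s| < r`, with `(P + s H, Q + s G)` not in `S` is at most `C r ^ (2 + c)` for some `c, C > 0` and all
small `r`; and `(P, Q)` is a Lebesgue density point of `S` in the full space of the coefficients.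

(2) Suppose that almost every point of the plane is attracted and that `f` is only weakly expanding
(for a rate `μ > 1` there are infinitely many `n` such that for every critical point `c` which is not
attracted the derivative of some iterate `f ^ m`, `m ≤ n`, at the critical value is at least `μ ^ n`; and
for the simple ones the inverses of the derivatives are summable). Let `p (k)` be the proportion of the
pairs which are not in `S` among the pairs `(P + s H, Q + s G)`, `|s| < 2 ^ (- k)`, or among all the pairs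
whose coefficients are within `2 ^ (- k)` of those of `(P, Q)`. Then the lower limit of the means of
`p (0), …, p (N - 1)` is zero, for all directions outside at most `4 (d - 1)` proper subspaces and in the
full space. So the upper Lebesgue density of `S` is one.
-/

set_option autoImplicit false

open MeasureTheory Filter Metric Topology Polynomial
open scoped OnePoint

namespace Pool.Agent.Results.MP_8f2e1c_an.LebesgueDensityColletEckmann

/-- The space of the coefficients of the pairs of polynomials of degree at most `d`. -/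
abbrev Coeffs (d : ℕ) : Type := Fin 2 × Fin (d + 1) → ℂ

/-- The numerator: the polynomial with the coefficients `x (0, 0), …, x (0, d)`. -/
noncomputable def num {d : ℕ} (x : Coeffs d) : ℂ[X] := ∑ i : Fin (d + 1), C (x (0, i)) * X ^ (i : ℕ)

/-- The denominator: the polynomial with the coefficients `x (1, 0), …, x (1, d)`. -/
noncomputable def den {d : ℕ} (x : Coeffs d) : ℂ[X] := ∑ i : Fin (d + 1), C (x (1, i)) * X ^ (i : ℕ)

/-- The coefficients of the hyperbolic rational maps of degree `d`: numerator and denominator are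
coprime, the degree is `d`, and all the critical points (the points where the map `f` of the sphere
is not locally injective) are attracted by periodic sinks. This is the formula of the frozen
statement. -/
def hyperbolic (d : ℕ) : Set (Coeffs d) :=
  {x | IsCoprime (num x) (den x) ∧ max (num x).natDegree (den x).natDegree = d ∧
    ∃ f : OnePoint ℂ → OnePoint ℂ, Continuous f ∧
      (∀ z : ℂ, (den x).eval z ≠ 0 →
        f (OnePoint.some z) = OnePoint.some ((num x).eval z / (den x).eval z)) ∧
      ∀ c : OnePoint ℂ, (¬ ∃ U ∈ nhds c, Set.InjOn f U) →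
        ∃ z : OnePoint ℂ, ∃ n : ℕ, 0 < n ∧ f^[n] z = z ∧
          (∃ U ∈ nhds z, ∀ w ∈ U, Tendsto (fun k : ℕ => f^[n * k] w) atTop (nhds z)) ∧
          Tendsto (fun k : ℕ => f^[n * k] c) atTop (nhds z)}

/-- The rational function `P / Q` as a map of the plane (with junk value at the poles, where it is
never used). -/
noncomputable def plane (P Q : ℂ[X]) (z : ℂ) : ℂ := P.eval z / Q.eval z

/-- The polynomial `P' Q - P Q'`. Its zeros outside the poles are the finite critical points of
`P / Q` which are not poles, with the same multiplicities. -/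
noncomputable def critPoly (P Q : ℂ[X]) : ℂ[X] := derivative P * Q - P * derivative Q

/-- The point `x` of the sphere lies in the basin of an attracting cycle of `f` which does not pass
through `∞`. Here `g` is the restriction of `f` to the plane. -/
def Attracted (f : OnePoint ℂ → OnePoint ℂ) (g : ℂ → ℂ) (x : OnePoint ℂ) : Prop :=
  ∃ n : ℕ, 0 < n ∧ ∃ z : ℂ, (∀ i : ℕ, f^[i] (z : OnePoint ℂ) ≠ ∞) ∧
    f^[n] (z : OnePoint ℂ) = (z : OnePoint ℂ) ∧ ‖deriv (g^[n]) z‖ < 1 ∧
    Tendsto (fun k : ℕ => f^[n * k] x) atTop (𝓝 (z : OnePoint ℂ))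

/-- The Collet-Eckmann condition for the critical point `c`: the derivatives of the iterates at the
critical value grow exponentially. -/
def ColletEckmann (g : ℂ → ℂ) (c : ℂ) : Prop :=
  ∃ μ : ℝ, 1 < μ ∧ ∀ᶠ n : ℕ in atTop, μ ^ n ≤ ‖deriv (g^[n]) (g c)‖

/-- The proportion, in the disc of radius `2 ^ (- k)`, of the `s` for which `x + s b` is not in
`S`. -/
noncomputable def lineProportion {d : ℕ} (S : Set (Coeffs d)) (x b : Coeffs d) (k : ℕ) : ENNReal :=
  volume {s : ℂ | s ∈ ball (0 : ℂ) ((1 / 2) ^ k) ∧ x + s • b ∉ S} /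
    volume (ball (0 : ℂ) ((1 / 2) ^ k))

/-- The proportion, among the vectors with coordinates within `2 ^ (- k)` of those of `x`, of the
vectors which are not in `S` (`volume` is an outer measure on the sets which are not
measurable). -/
noncomputable def spaceProportion {d : ℕ} (S : Set (Coeffs d)) (x : Coeffs d) (k : ℕ) : ENNReal :=
  volume {y | y ∉ S ∧ y ∈ ball x ((1 / 2) ^ k)} / volume (ball x ((1 / 2) ^ k))

/-- The mean of the first `N` terms. -/
noncomputable def mean (p : ℕ → ENNReal) (N : ℕ) : ENNReal := (∑ k ∈ Finset.range N, p k) / N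

/-- `x` is a Lebesgue density point of `S`: with a power rate in every complex line through `x` with a
direction outside at most `4 (d - 1)` proper subspaces, and in the full space of the coefficients
(balls for the maximum norm; `volume` is an outer measure on the sets which are not measurable). -/
def DensityOne {d : ℕ} (S : Set (Coeffs d)) (x : Coeffs d) : Prop :=
  (∃ 𝒱 : Finset (Submodule ℂ (Coeffs d)), 𝒱.card ≤ 4 * (d - 1) ∧ (∀ V ∈ 𝒱, V ≠ ⊤) ∧
    ∀ b : Coeffs d, (∀ V ∈ 𝒱, b ∉ V) →
      ∃ c > (0 : ℝ), ∃ C > (0 : ℝ), ∃ r₁ > (0 : ℝ), ∀ r : ℝ, 0 < r → r < r₁ →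
        volume {s : ℂ | ‖s‖ < r ∧ x + s • b ∉ S} ≤ ENNReal.ofReal (C * r ^ ((2 : ℝ) + c))) ∧
  Tendsto (fun r : ℝ => volume (ball x r \ S) / volume (ball x r)) (𝓝[>] 0) (𝓝 0)

/-- Upper logarithmic density one of `S` at `x`: in almost every complex line through `x`, and in the
full space of the coefficients. -/
def UpperDensityOne {d : ℕ} (S : Set (Coeffs d)) (x : Coeffs d) : Prop :=
  (∃ 𝒱 : Finset (Submodule ℂ (Coeffs d)), 𝒱.card ≤ 4 * (d - 1) ∧ (∀ V ∈ 𝒱, V ≠ ⊤) ∧
    ∀ b : Coeffs d, (∀ V ∈ 𝒱, b ∉ V) →
      liminf (fun N : ℕ => mean (lineProportion S x b) N) atTop = 0) ∧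
  liminf (fun N : ℕ => mean (spaceProportion S x) N) atTop = 0

/-- Weak expansion along the orbits of the critical values which are not attracted. -/
def WeaklyExpanding (f : OnePoint ℂ → OnePoint ℂ) (P Q : ℂ[X]) : Prop :=
  (∃ μ : ℝ, 1 < μ ∧ ∃ᶠ n : ℕ in atTop, ∀ c : ℂ, (critPoly P Q).eval c = 0 →
    Attracted f (plane P Q) (c : OnePoint ℂ) ∨
      ∃ m ≤ n, μ ^ n ≤ ‖deriv ((plane P Q)^[m]) (plane P Q c)‖) ∧
  ∀ c : ℂ, (critPoly P Q).eval c = 0 →
    Attracted f (plane P Q) (c : OnePoint ℂ) ∨ 2 ≤ (critPoly P Q).rootMultiplicity c ∨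
      Summable fun m : ℕ => ‖deriv ((plane P Q)^[m]) (plane P Q c)‖⁻¹

theorem transfer {d : ℕ} (hd : 2 ≤ d) : (hyperbolic d)ᶜ ⊆ Pool.Agent.H211.LR.rbad d := by
  intro x hx hgood
  exact hx (Pool.Agent.H211.LR.good_hyp hd hgood)

theorem mean_le {p q : ℕ → ENNReal} (h : ∀ k, p k ≤ q k) (N : ℕ) : mean p N ≤ mean q N := by
  unfold mean
  gcongr with k
  exact h k

theorem line_le {d : ℕ} (hd : 2 ≤ d) (x b : Coeffs d) (N : ℕ) :
    mean (lineProportion (hyperbolic d) x b) N ≤
      Pool.Agent.H211.LD.avg
        (Pool.Agent.H211.LR.propLine (Pool.Agent.H211.LR.rbad d) x b) N := by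
  refine mean_le (q := Pool.Agent.H211.LR.propLine (Pool.Agent.H211.LR.rbad d) x b)
    (fun k => ?_) N
  unfold lineProportion Pool.Agent.H211.LR.propLine
  apply ENNReal.div_le_div_right
  exact measure_mono fun s hs => ⟨hs.1, transfer hd hs.2⟩

theorem space_le {d : ℕ} (hd : 2 ≤ d) (x : Coeffs d) (N : ℕ) :
    mean (spaceProportion (hyperbolic d) x) N ≤
      Pool.Agent.H211.LD.avg
        (Pool.Agent.H211.LR.prop (Pool.Agent.H211.LR.rbad d) x) N := by
  refine mean_le (q := Pool.Agent.H211.LR.prop (Pool.Agent.H211.LR.rbad d) x)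
    (fun k => ?_) N
  unfold spaceProportion Pool.Agent.H211.LR.prop
  apply ENNReal.div_le_div_right
  exact measure_mono fun s hs => ⟨transfer hd hs.1, hs.2⟩

theorem tendsto_of_le {p q : ℕ → ENNReal} (h : ∀ k, p k ≤ q k) (hq : Tendsto q atTop (𝓝 0)) :
    Tendsto p atTop (𝓝 0) :=
  tendsto_of_tendsto_of_tendsto_of_le_of_le tendsto_const_nhds hq (fun _ => zero_le) h

theorem liminf_of_le {p q : ℕ → ENNReal} (h : ∀ k, p k ≤ q k) (hq : liminf q atTop = 0) :
    liminf p atTop = 0 := by
  refine le_antisymm ?_ zero_le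
  rw [← hq]
  exact Filter.liminf_le_liminf (Eventually.of_forall h)

/-- Logarithmic density one, and upper logarithmic density one, of the hyperbolic rational maps. -/
theorem result (d : ℕ) (hd : 2 ≤ d) (x : Coeffs d) (hx : IsCoprime (num x) (den x))
    (hdeg : max (num x).natDegree (den x).natDegree = d) (f : OnePoint ℂ → OnePoint ℂ)
    (hf : Continuous f) (hfe : ∀ z : ℂ, (den x).eval z ≠ 0 →
      f (OnePoint.some z) = OnePoint.some ((num x).eval z / (den x).eval z))
    (hinf : Attracted f (plane (num x) (den x)) ∞) :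
    ((∀ c : ℂ, (critPoly (num x) (den x)).eval c = 0 →
        Attracted f (plane (num x) (den x)) (c : OnePoint ℂ) ∨
          ColletEckmann (plane (num x) (den x)) c) →
      volume {z : ℂ | ¬ Attracted f (plane (num x) (den x)) (z : OnePoint ℂ)} = 0 ∧
        DensityOne (hyperbolic d) x) ∧
    (volume {z : ℂ | ¬ Attracted f (plane (num x) (den x)) (z : OnePoint ℂ)} = 0 →
      WeaklyExpanding f (num x) (den x) → UpperDensityOne (hyperbolic d) x) := by
  classical
  obtain ⟨P, hPx⟩ : ∃ P, P = num x := ⟨_, rfl⟩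
  obtain ⟨Q, hQx⟩ : ∃ Q, Q = den x := ⟨_, rfl⟩
  rw [← hPx, ← hQx] at hx hdeg hfe hinf ⊢
  have hd0 : 0 < d := by omega
  have hP : P.natDegree ≤ d := hdeg ▸ le_max_left _ _
  have hQle : Q.natDegree ≤ d := hdeg ▸ le_max_right _ _
  have hfinf : f ∞ ≠ ∞ := by
    intro h
    obtain ⟨n, -, z, -, -, -, ht⟩ := hinf
    have h1 : ∀ k : ℕ, f^[k] (∞ : OnePoint ℂ) = ∞ := by
      intro k
      induction k with
      | zero => rfl
      | succ k ih => rw [Function.iterate_succ_apply', ih, h]
    have h2 : Tendsto (fun _ : ℕ => (∞ : OnePoint ℂ)) atTop (𝓝 (z : OnePoint ℂ)) :=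
      ht.congr fun k => h1 _
    exact OnePoint.coe_ne_infty z (tendsto_nhds_unique h2 tendsto_const_nhds)
  have hQ0 : Q ≠ 0 := by
    intro h
    have h1 : IsUnit P := by
      rw [h] at hx
      exact isCoprime_zero_right.1 hx
    have h2 := Polynomial.natDegree_eq_zero_of_isUnit h1
    rw [h2, h] at hdeg
    simp at hdeg
    omega
  have hrat : Pool.Agent.Helper114.Herman.IsRat f P Q := ⟨hf, hx, hQ0, hfe⟩
  have hfs : f = Pool.Agent.H792R2.CE.sph d P Q := by
    funext y
    induction y using OnePoint.rec with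
    | infty =>
      have h1 := Pool.Agent.Helper114.Herman.rat_formula hrat hdeg.symm hd0 (u := 1) (v := 0)
        (Or.inl one_ne_zero)
      rw [Pool.Agent.Helper114.Herman.pr_zero, Pool.Agent.Helper114.Herman.hom_zero,
        Pool.Agent.Helper114.Herman.hom_zero, one_pow, mul_one, mul_one] at h1
      rw [h1]
      rfl
    | coe z =>
      have h1 := Pool.Agent.Helper114.Herman.rat_formula hrat hdeg.symm hd0 (u := z) (v := 1)
        (Or.inr one_ne_zero)
      rw [Pool.Agent.Helper114.Herman.pr_one, Pool.Agent.Helper114.Herman.hom_ne hP one_ne_zero,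
        Pool.Agent.Helper114.Herman.hom_ne hQle one_ne_zero, one_pow, one_mul, one_mul,
        div_one] at h1
      rw [h1]
      rfl
  have hQd : Q.natDegree = d := by
    refine le_antisymm hQle (Polynomial.le_natDegree_of_ne_zero ?_)
    intro h0
    apply hfinf
    rw [hfs, Pool.Agent.H792R2.CE.sph_infty, h0, Pool.Agent.Helper114.Herman.pr_zero]
  have hatt : ∀ y, Attracted f (plane P Q) y ↔ Pool.Agent.H792R2.CE.Att d P Q y := by
    intro y
    rw [hfs]
    exact Iff.rfl
  have hwr : critPoly P Q = Pool.Agent.H792R2.CE.wr P Q := rfl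
  have hrf : plane P Q = Pool.Agent.H792R2.CE.rf P Q := rfl
  have hinf' : Pool.Agent.H792R2.CE.Att d P Q ∞ := (hatt ∞).1 hinf
  have hset : {z : ℂ | ¬ Pool.Agent.H792R2.CE.Att d P Q (z : OnePoint ℂ)} =
      {z : ℂ | ¬ Attracted f (plane P Q) (z : OnePoint ℂ)} := by
    ext z
    exact not_congr (hatt _).symm
  have hPP : Pool.Agent.H211.LR.PP x = P := hPx.symm
  have hQQ : Pool.Agent.H211.LR.QQ x = Q := hQx.symm
  have hNz : Pool.Agent.H792R2.CE.wr P Q ≠ 0 :=
    Pool.Agent.H792R2.CE.wr_ne_zero hd0 hx hQd
  have hmeas := Pool.Agent.H211.LR.rbad_meas hd x 1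
  constructor
  · intro hCE
    obtain ⟨h1, ⟨𝒱, h2, h3, h4⟩, h5⟩ := Pool.Agent.H211.AD.rfinal (x₀ := x) hd
      (by rw [hPP, hQQ]; exact hx) (by rw [hQQ]; exact hQd) (by rw [hPP, hQQ]; exact hinf')
      (by
        rw [hPP, hQQ]
        intro c hc
        rcases hCE c hc with h | h
        · exact Or.inl ((hatt _).1 h)
        · exact Or.inr h)
    rw [hPP, hQQ, hset] at h1
    refine ⟨h1, ⟨𝒱, h2, h3, fun b hb => ?_⟩, ?_⟩
    · obtain ⟨c, hc, C, hC, r₁, hr₁, h6⟩ := h4 b hb
      refine ⟨c, hc, C, hC, r₁, hr₁, fun r hr hrr => (measure_mono ?_).trans (h6 r hr hrr)⟩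
      rintro s ⟨hs, hs2⟩
      exact ⟨hs, transfer hd hs2⟩
    · refine tendsto_of_tendsto_of_tendsto_of_le_of_le tendsto_const_nhds h5 (fun _ => zero_le)
        fun r => ?_
      apply ENNReal.div_le_div_right
      apply measure_mono
      rintro y ⟨hy1, hy2⟩
      exact ⟨transfer hd hy2, hy1⟩
  · rintro hnull ⟨⟨μ, hμ, hexp⟩, hsimple⟩
    have hnull' : volume {z : ℂ | ¬ Pool.Agent.H792R2.CE.Att d P Q (z : OnePoint ℂ)} = 0 := by
      rw [hset]
      exact hnull
    have hlines := Pool.Agent.H211.LR.rlines (x₀ := x) hd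
      (by rw [hPP, hQQ]; exact hx) (by rw [hQQ]; exact hQd) (by rw [hPP, hQQ]; exact hinf')
      (by rw [hPP, hQQ]; exact hnull') hμ
    rw [hPP, hQQ] at hlines
    have hgr' : ∃ᶠ n in atTop, Pool.Agent.H211.LR.GrR d P Q μ n := by
      refine hexp.mono fun n hn c hc => ?_
      exact (hn c hc).imp (hatt _).1 id
    have hsm : ∀ c : ℂ, (Pool.Agent.H792R2.CE.wr P Q).eval c = 0 →
        ¬ Pool.Agent.H792R2.CE.Att d P Q (c : OnePoint ℂ) →
        (Pool.Agent.H792R2.CE.wr P Q).rootMultiplicity c = 1 →
        Summable fun m => ‖deriv ((Pool.Agent.H792R2.CE.rf P Q)^[m])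
          (Pool.Agent.H792R2.CE.rf P Q c)‖⁻¹ := by
      intro c hc hA hk
      rcases hsimple c hc with h | h | h
      · exact absurd ((hatt _).1 h) hA
      · rw [hwr, hk] at h
        omega
      · exact h
    obtain ⟨𝒱, h1, h2, h3⟩ := hlines hgr' hsm
    obtain ⟨h4, h5⟩ := Pool.Agent.H211.LR.combine_freq one_pos hmeas h2 hgr' h3
    exact ⟨⟨𝒱, h1, h2, fun b hb => liminf_of_le (line_le hd x b) (h4 b hb)⟩,
      liminf_of_le (space_le hd x) h5⟩

end Pool.Agent.Results.MP_8f2e1c_an.LebesgueDensityColletEckmann
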